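import Pool.Agent.Q161.AceInj3

/-!
# MP_52ae34_co: the factor `S(n)` grows at most linearly

`ACE w` is the asymptotic critical exponent of the infinite word `w`, `ACEinj β w` the supremum of
`ACE (h(w))` over the injective morphisms `h` into words over `β`, and `S n β` the supremum of
`ACEinj β w / ACE w` over the words `w` over an `n`-letter alphabet with `ACE w` finite.

We prove `ACEinj β w ≤ n (⌊ACE w⌋ + 1) + 1` and `S n β ≤ 2 n + 1`.
-/

namespace Pool.Agent.Results.MP_52ae34_co.LinearGrowth

open Filter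

/-- `u = v ^ (|u| / |v|)`: `v` is nonempty and `u` is a prefix of `v v v ⋯`. -/
def IsPow {α : Type*} (u v : List α) : Prop := v ≠ [] ∧ ∀ j < u.length, u[j]? = v[j % v.length]?

/-- The fractional exponent of a finite word. -/
noncomputable def expo {α : Type*} (u : List α) : ENNReal :=
  ⨆ v : List α, ⨆ _ : IsPow u v, (u.length : ENNReal) / v.length

/-- The factors of length `m` of an infinite word. -/
def Fact {α : Type*} (w : ℕ → α) (m : ℕ) : Set (List α) :=
  {u | ∃ i, u = List.ofFn (fun j : Fin m => w (i + j))}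

/-- The asymptotic critical exponent of an infinite word. -/
noncomputable def ACE {α : Type*} (w : ℕ → α) : ENNReal :=
  limsup (fun m => ⨆ u ∈ Fact w m, expo u) atTop

/-- `y` is the image of `w` under the morphism given by `h`: every word `h(w_0 ⋯ w_{k-1})` is a
prefix of `y`. -/
def IsImage {α β : Type*} (h : α → List β) (w : ℕ → α) (y : ℕ → β) : Prop :=
  ∀ k, ∀ j < ((List.ofFn (fun t : Fin k => w t)).flatMap h).length,
    ((List.ofFn (fun t : Fin k => w t)).flatMap h)[j]? = some (y j)

/-- The supremum of `ACE (h(w))` over the injective morphisms `h : α* → β*`. -/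
noncomputable def ACEinj {α : Type*} (β : Type*) (w : ℕ → α) : ENNReal :=
  ⨆ (h : α → List β) (_ : Function.Injective (fun u : List α => u.flatMap h)) (y : ℕ → β)
    (_ : IsImage h w y), ACE y

/-- `S(n)` for target alphabet `β`. -/
noncomputable def S (n : ℕ) (β : Type*) : ENNReal :=
  ⨆ (w : ℕ → Fin n) (_ : ACE w ≠ ⊤), ACEinj β w / ACE w

theorem result (n : ℕ) (β : Type*) :
    (∀ w : ℕ → Fin n, ACE w ≠ ⊤ →
      ACEinj β w ≤ (n : ENNReal) * (⌊(ACE w).toReal⌋₊ + 1) + 1) ∧
    S n β ≤ 2 * n + 1 := by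
  have h1 : ∀ w : ℕ → Fin n, ACE w ≠ ⊤ →
      ACEinj β w ≤ (n : ENNReal) * (⌊(ACE w).toReal⌋₊ + 1) + 1 := by
    intro w hw
    refine iSup_le fun h => iSup_le fun hinj => iSup_le fun y => iSup_le fun hy => ?_
    have := Pool.Agent.Q161.AceInj.ace_floor_bound hinj hy hw
    rw [Fintype.card_fin] at this
    exact this
  refine ⟨h1, ?_⟩
  refine iSup_le fun w => iSup_le fun hw => ?_
  have h0 : 1 ≤ ACE w := Pool.Agent.Q161.AceInj.one_le_ace w
  apply ENNReal.div_le_of_le_mul
  refine iSup_le fun h => iSup_le fun hinj => iSup_le fun y => iSup_le fun hy => ?_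
  have := Pool.Agent.Q161.AceInj.ace_ratio_bound hinj hy hw
  rw [Fintype.card_fin] at this
  exact this

end Pool.Agent.Results.MP_52ae34_co.LinearGrowth
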